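import Pool.Agent.H.MP_9a58dc_co.C

set_option autoImplicit false

namespace Pool.Agent.Results.MP_9a58dc_co.LogAsymp

open Pool.Agent.H.MP_9a58dc_co Filter Topology

theorem result :
    (∀ r : ℕ, ∀ x ∈ ratios r, x ≤ Real.log (r + 1) + 2) ∧
      Tendsto (fun r : ℕ => rho r / Real.log r) atTop (𝓝 1) := by
  refine ⟨fun r x hx => ratio_le hx, ?_⟩
  have hl : Tendsto (fun r : ℕ => Real.log (r : ℝ)) atTop atTop :=
    Real.tendsto_log_atTop.comp tendsto_natCast_atTop_atTop
  rw [tendsto_order]
  constructor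
  · intro a ha
    have h1 : 0 < min (1 / 2) ((1 - a) / 2) := lt_min (by norm_num) (by linarith)
    have h2 : min (1 / 2) ((1 - a) / 2) < 1 := (min_le_left _ _).trans_lt (by norm_num)
    filter_upwards [lower h1 h2, hl.eventually_gt_atTop 0] with r ⟨y, hy, hy'⟩ hr
    have h3 : y ≤ rho r := le_csSup ⟨_, fun x hx => ratio_le hx⟩ hy
    rw [lt_div_iff₀ hr]
    have h4 : a < 1 - min (1 / 2) ((1 - a) / 2) := by
      have := min_le_right (1 / 2 : ℝ) ((1 - a) / 2)
      linarith
    have := mul_lt_mul_of_pos_right h4 hr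
    linarith
  · intro a ha
    filter_upwards [hl.eventually_gt_atTop 0, hl.eventually_gt_atTop (3 / (a - 1)),
      eventually_ge_atTop 1] with r hr hr2 hr1
    have hr1' : (1 : ℝ) ≤ r := by exact_mod_cast hr1
    have h0 : 0 ≤ Real.log ((r : ℝ) + 1) := Real.log_nonneg (by linarith)
    have h3 : rho r ≤ Real.log (r + 1) + 2 :=
      Real.sSup_le (fun x hx => ratio_le hx) (by linarith)
    have h4 : Real.log ((r : ℝ) + 1) ≤ Real.log r + 1 := by
      have a1 : Real.log ((r : ℝ) + 1) ≤ Real.log (r * 2) :=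
        Real.log_le_log (by linarith) (by linarith)
      rw [Real.log_mul (by linarith) (by norm_num)] at a1
      have := Real.log_two_lt_d9
      linarith
    rw [div_lt_iff₀ (by linarith)] at hr2
    rw [div_lt_iff₀ hr]
    linarith

end Pool.Agent.Results.MP_9a58dc_co.LogAsymp
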